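import Pool.Agent.Y169.CP.Main

/-!
# The Campana-Peternell conjecture for quotients of products of hypersurfaces

Let `F i` be a form of degree `d i` in `n i + 1` variables whose zero set in the projective
`n i`-space is a smooth hypersurface, and let `H i` be the cyclic hypersurface `w ^ (d i) = F i` in
the projective `(n i + 1)`-space. Let `X` be a projective manifold which is birational to a quotient
`(H 1 × ... × H r) / G`, where `G` is any group of diagonal automorphisms
`w i ↦ ζ i * w i`, `ζ i ^ (d i) = 1`. Equivalently, the function field `K` of `X` is generated by the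
affine coordinates `x i j / x i 0` of the product of the projective `n i`-spaces and by roots `z j`,
`z j ^ (m j) = ∏ i, (F i (x i) / x i 0 ^ (d i)) ^ (a j i)`, where `m j` divides `a j i * d i`.

The theorem: if `q K_X - A` is pseudo-effective, for a divisor `A` on `X` and `q ≥ 1`, then
`κ (X) ≥ κ (A)`. (If `K_X` is linearly equivalent to the sum of an effective `ℚ`-divisor `A` and a
pseudo-effective `ℚ`-divisor `B`, apply this to an integral multiple `q A`.) The quotients have
quotient singularities, in general not canonical ones, the canonical class of `X` is in general not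
the pullback of the canonical class of the quotient, and `κ (X)` may be smaller than the dimension
even if all `d i` are larger than `n i + 1`.

A divisor on `X` is given by the multiplicities of its pullbacks along the prime divisors over `X`,
the divisorial places of `K`. Sections are functions of `N = dim X` rational vector fields, with a
condition at all these places, so that they are the sections on every smooth projective model of `K`.
Pseudo-effectivity is used in the form that for some divisor `H` all the divisors
`j (q K_X - A) + H`, `j ≥ 1`, are effective.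

The proof: `κ (X) = ν (X)` if `K_X` is pseudo-effective
(`Pool/Agent/Results/MP_c2a5fc_ag/HypersurfaceQuotients.lean`), and products of sections of
multiples of `A` with sections of `j (q K_X - A) + H` are sections of `j q K_X + H`.
-/

set_option autoImplicit false

open FF MvPolynomial Pool.Agent.W602.GT

namespace Pool.Agent.Results.MP_370cf3_ag.HypersurfaceQuotients

/-- The form `F` has no singular zeros: its partial derivatives have no common zero but `0`. -/
def Smooth {n : ℕ} (F : MvPolynomial (Fin (n + 1)) ℂ) : Prop :=
  ∀ x : Fin (n + 1) → ℂ, x ≠ 0 → ∃ l, eval x (pderiv l F) ≠ 0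

/-- The affine coordinates of the product of the projective spaces. -/
noncomputable def affine {r : ℕ} {n : Fin r → ℕ} {K : Type} [Field K]
    (x : ∀ i, Fin (n i + 1) → K) (b : (i : Fin r) × Fin (n i)) : K :=
  x b.1 b.2.succ / x b.1 0

section divisors

variable (N : ℕ) (K : Type) [Field K] [Algebra ℂ K]

/-- `κ (X) ≥ h`: for some `m > 0` there are sections `ω b` of `m K_X` whose ratios contain `h`
algebraically independent functions. A section of `m K_X` is a rational section of the `m`-th power
of the canonical bundle (`IsPluri`: a function of `N` rational vector fields which is multiplied by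
`det B ^ m` under a linear substitution `B`) which is regular on the vector fields that are regular
at `P`, for all prime divisors `P` over `X` (all divisorial places `P` of `K`). -/
def KodairaGe (h : ℕ) : Prop :=
  ∃ m : ℕ, 0 < m ∧ ∃ ω : Fin (h + 1) → (Fin N → Derivation ℂ K K) → K,
    (∀ b, IsPluri m (ω b) ∧ ∀ P : Place ℂ K, Divisorial N P → ∀ D : Fin N → Derivation ℂ K K,
      (∀ c, DerReg P (D c)) → ω b D = 0 ∨ 0 ≤ P.ord (ω b D)) ∧
    ∃ D, ω 0 D ≠ 0 ∧ AlgebraicIndependent ℂ (fun b : Fin h => ω b.succ D / ω 0 D)

/-- `κ (A) ≥ h`, where the divisor `A` has the multiplicity `A P` along the prime divisor `P` over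
`X`: for some `m > 0` there are sections `f b` of `m A` whose ratios contain `h` algebraically
independent functions. -/
def IitakaGe (A : Place ℂ K → ℤ) (h : ℕ) : Prop :=
  ∃ m : ℕ, 0 < m ∧ ∃ f : Fin (h + 1) → K, f 0 ≠ 0 ∧
    (∀ b, ∀ P : Place ℂ K, Divisorial N P → f b = 0 ∨ - (m * A P) ≤ P.ord (f b)) ∧
    AlgebraicIndependent ℂ fun b : Fin h => f b.succ / f 0

/-- `q K_X - A` is pseudo-effective: there is a divisor `H` (the divisor generated by a finite set
`S` of functions) such that for all `j ≥ 1` the divisor `j (q K_X - A) + H` has a nonzero section. -/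
def PseudoeffectiveSub (q : ℕ) (A : Place ℂ K → ℤ) : Prop :=
  ∃ S : Finset K, ∀ j : ℕ, 1 ≤ j → ∃ ω : (Fin N → Derivation ℂ K K) → K, ω ≠ 0 ∧
    IsPluri (j * q) ω ∧ ∀ P : Place ℂ K, Divisorial N P → ∀ D : Fin N → Derivation ℂ K K,
      (∀ c, DerReg P (D c)) → ω D = 0 ∨ ∃ s ∈ S, s ≠ 0 ∧ j * A P + P.ord s ≤ P.ord (ω D)

end divisors

/-- **The Campana-Peternell inequality.** Let `X` be a projective manifold birational to an abelian
cover of the product of the projective `n i`-spaces which is branched along smooth hypersurfaces
`F i = 0` of the factors (that is, to a quotient of the product of the cyclic hypersurfaces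
`w ^ (d i) = F i` by a group of diagonal automorphisms), let `A` be a divisor on `X`, `q ≥ 1`, and
let `q K_X - A` be pseudo-effective. Then `κ (X) ≥ κ (A)`. -/
theorem result (r N R : ℕ) (n d : Fin r → ℕ) (hr : 1 ≤ r) (hn : ∀ i, 1 ≤ n i)
    (hd : ∀ i, 1 ≤ d i) (hN : N = ∑ i, n i)
    (F : ∀ i, MvPolynomial (Fin (n i + 1)) ℂ) (hF : ∀ i, (F i).IsHomogeneous (d i))
    (hs : ∀ i, Smooth (F i)) (m : Fin R → ℕ) (hm : ∀ j, 1 ≤ m j) (a : Fin R → Fin r → ℕ)
    (hdiv : ∀ j i, m j ∣ a j i * d i)
    (K : Type) [Field K] [Algebra ℂ K] (x : ∀ i, Fin (n i + 1) → K) (hx0 : ∀ i, x i 0 ≠ 0)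
    (hbas : IsTranscendenceBasis ℂ (affine x)) (z : Fin R → K)
    (hz : ∀ j, z j ^ m j = ∏ i, (aeval (x i) (F i) / x i 0 ^ d i) ^ a j i)
    (hgen : IntermediateField.adjoin ℂ (Set.range (affine x) ∪ Set.range z) = ⊤)
    (q : ℕ) (hq : 1 ≤ q) (A : Place ℂ K → ℤ) (hA : PseudoeffectiveSub N K q A) (h : ℕ)
    (hκ : IitakaGe N K A h) : KodairaGe N K h := by
  classical
  obtain ⟨h1, -, h3⟩ := Pool.Agent.Y169.CH.main hr hn hN hd hF hs hx0 hbas hm hdiv hz hgen
    (Finset.univ.filter fun i => ∀ v, Pool.Agent.Y169.CH.Adm m a v →
      ∑ s, (((d s : ℚ) - n s - 1) / d s) * v s = 1 → v i = 0) (fun i => by simp)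
  exact Pool.Agent.Y169.CP.kod_ge_iff.1 (Pool.Agent.Y169.CP.cp
    (fun hp => ⟨_, h3 (h1.1 hp)⟩) hq hA hκ)

end Pool.Agent.Results.MP_370cf3_ag.HypersurfaceQuotients
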