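import Pool.Agent.W619.Y.LMain
import Pool.Agent.W619.TW.CP

/-! The Campana-Peternell conjecture for log canonical divisors on quotients of products of a
variety and curves. -/

set_option autoImplicit false
set_option linter.overlappingInstances false

universe u

open FF IntermediateField Pool.Agent.W619.PQ Pool.Agent.W619.PL Pool.Agent.W619.TW
  Pool.Agent.W619.X Pool.Agent.W619.Y

namespace Pool.Agent.Results.MP_370cf3_ag.MixedLogPairs

/-- Let `Y` be a projective variety of dimension `d` with function field `M` (for instance a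
point), `F i` (`i < n`) the function fields of curves `C i`, `Z` the product of `Y` and the curves,
with function field `L` (`hsup`), `G` a finite group of automorphisms of `L` which permutes the
curves through `σ`, `B i` a finite set of points of the quotient of `C i` by its stabilizer, such
that the `B i` are permuted by `G`, `X` a projective manifold birational to `Z / G`, and `D` the
reduced divisor with normal crossings on `X` over the `B i`. (All `B i` may be empty: `D = 0`.)
Assume `LogMixedPos`, for instance that the fixed locus of each `g ≠ 1` in `G` on the product of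
the curves is empty or of codimension at least `7`, and assume that `κ (Y) = ν (Y)`, that is,
`ν (Y) = -∞` or `κ (Y) = ν (Y) = b` for some `b`. If `r (K_X + D) - A` is pseudo-effective for a
divisor `A` on `X` and `r ≥ 1`, then `κ (K_X + D) ≥ κ (A)`. -/
theorem result {L : Type u} [Field L] [Algebra ℂ L] (d n : ℕ)
    (hn : Algebra.trdeg ℂ L = (d + n : ℕ))
    (M : IntermediateField ℂ L) [Algebra.EssFiniteType ℂ M] (hM : Algebra.trdeg ℂ M = d)
    (F : Fin n → IntermediateField ℂ L) (hF : ∀ i, IsFF ℂ (F i))
    (hsup : M ⊔ (⨆ i, F i) = ⊤)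
    (G : Subgroup (L ≃ₐ[ℂ] L)) [Finite G] (σ : G →* Equiv.Perm (Fin n))
    (hσ : ∀ (g : G) i, ∀ z ∈ F i, (g : L ≃ₐ[ℂ] L) z ∈ F (σ g i))
    (B : ∀ i, Set (Place ℂ ↥(F i ⊓ fixedField (stb G σ i)))) (hB : ∀ i, (B i).Finite)
    (hinv : BdInv G σ F B) (h : LogMixedPos G σ F B)
    (hY : NumNeg ℂ M d (fun _ => False) ∨
      ∃ b, KodTr ℂ M d b ∧ NumLe ℂ M d (fun _ => False) b)
    (r : ℕ) (hr : 1 ≤ r) (a : Place ℂ (fixedField G) → ℤ)
    (hps : IsPsefRest ℂ (fixedField G) (d + n) (BdQ G σ F B) r a) (j : ℕ)
    (hA : DivKodGe ℂ (fixedField G) (d + n) a j) :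
    KodGe ℂ (fixedField G) (d + n) (BdQ G σ F B) j := by
  have halg : Algebra.IsAlgebraic ↥(M ⊔ ⨆ i, F i) L := alg_of_top M F hsup
  obtain ⟨h1, h2⟩ := abLM d n hn M hM F halg G σ hσ B hB hinv h
  obtain ⟨h3, h4, -⟩ := h2 hsup
  rcases hY with hY | ⟨b, hb1, hb2⟩
  · exact absurd hA (cp_of_neg (h4 (Or.inl hY)) hr hps)
  · by_cases hneg : ∃ i, IsNegative inf_le_left (B i)
    · exact absurd hA (cp_of_neg (h4 (Or.inr hneg)) hr hps)
    · push Not at hneg
      exact cp_of_num (h1 hneg b hb1).2 (h3 hneg b hb2) hr hps hA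

end Pool.Agent.Results.MP_370cf3_ag.MixedLogPairs
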