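import Pool.Agent.Y169.TH.Mak
import Pool.Agent.Y169.CP.Main

/-!
# The Campana-Peternell conjecture for abelian covers of projective space branched along normal
crossing hypersurfaces

Let `F k`, `k = 0, ..., n`, be forms of degrees `d k` in `n + 1` variables whose zero sets in the
projective `n`-space are smooth hypersurfaces with normal crossings, and let `X` be a projective
manifold which is birational to an abelian cover of the projective space which is branched only
along these hypersurfaces: the function field `K` of `X` is generated by the affine coordinates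
`x (b + 1) / x 0` and by roots `z j`, `z j ^ (m j) = ∏ k, (F k (x) / x 0 ^ (d k)) ^ (a j k)`, where
`m j` divides `∑ k, a j k * d k`. (Covers which are branched along fewer hypersurfaces are included:
add general hyperplanes, with `a j k = 0`.)

The theorem: if `r K_X - A` is pseudo-effective, for a divisor `A` on `X` and `r ≥ 1`, then
`κ (X) ≥ κ (A)`. (If `K_X` is linearly equivalent to the sum of an effective `ℚ`-divisor `A` and a
pseudo-effective `ℚ`-divisor `B`, apply this to an integral multiple `r A`.) Here `κ (X)` may be any
number between `0` and `n`, and `X` is in general not a minimal model: the covers have quotient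
singularities which are not canonical.

A divisor on `X` is given by the multiplicities of its pullbacks along the prime divisors over `X`,
the divisorial places of `K`. Sections are functions of `n = dim X` rational vector fields, with a
condition at all these places, so that they are the sections on every smooth projective model of `K`.
Pseudo-effectivity is used in the form that for some divisor `H` all the divisors
`j (r K_X - A) + H`, `j ≥ 1`, are effective.

The proof: `κ (X) = ν (X)` if `K_X` is pseudo-effective
(`Pool/Agent/Results/MP_97d78d_ag/NormalCrossingCovers.lean`), and products of sections of multiples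
of `A` with sections of `j (r K_X - A) + H` are sections of `j r K_X + H`.
-/

set_option autoImplicit false

open FF MvPolynomial Pool.Agent.W602.GT

namespace Pool.Agent.Results.MP_370cf3_ag.NormalCrossingCovers

/-- The hypersurfaces `F k = 0` have normal crossings: at every point of the projective space the
gradients of the forms `F k` which vanish at this point are linearly independent. -/
def NormalCrossings {n : ℕ} (F : Fin (n + 1) → MvPolynomial (Fin (n + 1)) ℂ) : Prop :=
  ∀ x : Fin (n + 1) → ℂ, x ≠ 0 → LinearIndependent ℂ
    fun (k : {k // eval x (F k) = 0}) (l : Fin (n + 1)) => eval x (pderiv l (F k.1))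

/-- The affine coordinates of the projective space. -/
noncomputable def affine {n : ℕ} {K : Type} [Field K] (x : Fin (n + 1) → K) (b : Fin n) : K :=
  x b.succ / x 0

section divisors

variable (N : ℕ) (K : Type) [Field K] [Algebra ℂ K]

/-- `κ (X) ≥ h`: for some `m > 0` there are sections `ω b` of `m K_X` whose ratios contain `h`
algebraically independent functions. A section of `m K_X` is a rational section of the `m`-th power
of the canonical bundle (`IsPluri`: a function of `N` rational vector fields which is multiplied by
`det B ^ m` under a linear substitution `B`) which is regular on the vector fields that are regular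
at `P`, for all prime divisors `P` over `X` (all divisorial places `P` of `K`). -/
def KodairaGe (h : ℕ) : Prop :=
  ∃ m : ℕ, 0 < m ∧ ∃ ω : Fin (h + 1) → (Fin N → Derivation ℂ K K) → K,
    (∀ b, IsPluri m (ω b) ∧ ∀ P : Place ℂ K, Divisorial N P → ∀ D : Fin N → Derivation ℂ K K,
      (∀ c, DerReg P (D c)) → ω b D = 0 ∨ 0 ≤ P.ord (ω b D)) ∧
    ∃ D, ω 0 D ≠ 0 ∧ AlgebraicIndependent ℂ (fun b : Fin h => ω b.succ D / ω 0 D)

/-- `κ (A) ≥ h`, where the divisor `A` has the multiplicity `A P` along the prime divisor `P` over
`X`: for some `m > 0` there are sections `f b` of `m A` whose ratios contain `h` algebraically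
independent functions. -/
def IitakaGe (A : Place ℂ K → ℤ) (h : ℕ) : Prop :=
  ∃ m : ℕ, 0 < m ∧ ∃ f : Fin (h + 1) → K, f 0 ≠ 0 ∧
    (∀ b, ∀ P : Place ℂ K, Divisorial N P → f b = 0 ∨ - (m * A P) ≤ P.ord (f b)) ∧
    AlgebraicIndependent ℂ fun b : Fin h => f b.succ / f 0

/-- `r K_X - A` is pseudo-effective: there is a divisor `H` (the divisor generated by a finite set
`S` of functions) such that for all `j ≥ 1` the divisor `j (r K_X - A) + H` has a nonzero section. -/
def PseudoeffectiveSub (r : ℕ) (A : Place ℂ K → ℤ) : Prop :=
  ∃ S : Finset K, ∀ j : ℕ, 1 ≤ j → ∃ ω : (Fin N → Derivation ℂ K K) → K, ω ≠ 0 ∧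
    IsPluri (j * r) ω ∧ ∀ P : Place ℂ K, Divisorial N P → ∀ D : Fin N → Derivation ℂ K K,
      (∀ c, DerReg P (D c)) → ω D = 0 ∨ ∃ s ∈ S, s ≠ 0 ∧ j * A P + P.ord s ≤ P.ord (ω D)

end divisors

/-- **The Campana-Peternell inequality.** Let `X` be a projective manifold birational to an abelian
cover of the projective `n`-space which is branched along `n + 1` hypersurfaces `F k = 0` with normal
crossings, let `A` be a divisor on `X`, `r ≥ 1`, and let `r K_X - A` be pseudo-effective. Then
`κ (X) ≥ κ (A)`. -/
theorem result (n R : ℕ) (hn : 1 ≤ n) (d : Fin (n + 1) → ℕ) (hd : ∀ k, 1 ≤ d k)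
    (F : Fin (n + 1) → MvPolynomial (Fin (n + 1)) ℂ) (hF : ∀ k, (F k).IsHomogeneous (d k))
    (hs : NormalCrossings F) (m : Fin R → ℕ) (hm : ∀ j, 1 ≤ m j) (a : Fin R → Fin (n + 1) → ℕ)
    (hdiv : ∀ j, m j ∣ ∑ k, a j k * d k)
    (K : Type) [Field K] [Algebra ℂ K] (x : Fin (n + 1) → K) (hx0 : x 0 ≠ 0)
    (hbas : IsTranscendenceBasis ℂ (affine x)) (z : Fin R → K)
    (hz : ∀ j, z j ^ m j = ∏ k, (aeval x (F k) / x 0 ^ d k) ^ a j k)
    (hgen : IntermediateField.adjoin ℂ (Set.range (affine x) ∪ Set.range z) = ⊤)
    (r : ℕ) (hr : 1 ≤ r) (A : Place ℂ K → ℤ) (hA : PseudoeffectiveSub n K r A) (h : ℕ)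
    (hκ : IitakaGe n K A h) : KodairaGe n K h := by
  obtain ⟨e, rfl⟩ : ∃ e, n = e + 1 := ⟨n - 1, by omega⟩
  obtain ⟨h1, -, h3⟩ := Pool.Agent.Y169.TH.main hx0 hbas hd hF hs hm hz hdiv hgen
  exact Pool.Agent.Y169.CP.kod_ge_iff.1 (Pool.Agent.Y169.CP.cp
    (fun hp => ⟨_, h3 (h1.1 hp)⟩) hr hA hκ)

end Pool.Agent.Results.MP_370cf3_ag.NormalCrossingCovers
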